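import Pool.Agent.Lib.MP_1ab58f_nt.Seq

/-!
# A transcendental real number with uniform exponent of degree four at least 17/4
-/

set_option autoImplicit false

open Polynomial

namespace Pool.Agent.MP1ab58f

/-- polynomial with given coefficients -/
noncomputable def p5 (a0 a1 a2 a3 a4 : ℤ) : ℤ[X] :=
  C a0 + C a1 * X + C a2 * X ^ 2 + C a3 * X ^ 3 + C a4 * X ^ 4

lemma coeff_p5 (a0 a1 a2 a3 a4 : ℤ) (i : ℕ) : (p5 a0 a1 a2 a3 a4).coeff i =
    if i = 0 then a0 else if i = 1 then a1 else if i = 2 then a2 else if i = 3 then a3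
      else if i = 4 then a4 else 0 := by
  unfold p5
  simp only [coeff_add, coeff_C, coeff_C_mul, coeff_X, coeff_X_pow]
  rcases i with _ | _ | _ | _ | _ | i <;> simp

lemma natDegree_p5 (a0 a1 a2 a3 a4 : ℤ) : (p5 a0 a1 a2 a3 a4).natDegree ≤ 4 := by
  rw [natDegree_le_iff_coeff_eq_zero]
  intro i hi
  rw [coeff_p5]
  have h0 : i ≠ 0 := by omega
  have h1 : i ≠ 1 := by omega
  have h2 : i ≠ 2 := by omega
  have h3 : i ≠ 3 := by omega
  have h4 : i ≠ 4 := by omega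
  simp [h0, h1, h2, h3, h4]

lemma aeval_p5 (a0 a1 a2 a3 a4 : ℤ) (x : ℝ) : aeval x (p5 a0 a1 a2 a3 a4) =
    (a0 : ℝ) + a1 * x + a2 * x ^ 2 + a3 * x ^ 3 + a4 * x ^ 4 := by
  unfold p5
  simp

lemma abs_coeff_p5 {a0 a1 a2 a3 a4 : ℤ} {H : ℝ} (h0 : |(a0 : ℝ)| ≤ H) (h1 : |(a1 : ℝ)| ≤ H)
    (h2 : |(a2 : ℝ)| ≤ H) (h3 : |(a3 : ℝ)| ≤ H) (h4 : |(a4 : ℝ)| ≤ H) (i : ℕ) :
    |(((p5 a0 a1 a2 a3 a4).coeff i : ℤ) : ℝ)| ≤ H := by
  rw [coeff_p5]
  split_ifs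
  · exact h0
  · exact h1
  · exact h2
  · exact h3
  · exact h4
  · simpa using (abs_nonneg _).trans h0

lemma le_rpow_of {v H : ℝ} (hv : 0 ≤ v) (hH : 0 < H) (h : v ^ 4 * H ^ 17 ≤ 1) :
    v ≤ H ^ (-(17 / 4 : ℝ)) := by
  have hr : (0 : ℝ) < H ^ (-(17 / 4 : ℝ)) := Real.rpow_pos_of_pos hH _
  have e : (H ^ (-(17 / 4 : ℝ))) ^ 4 = (H ^ 17)⁻¹ := by
    rw [← Real.rpow_natCast (H ^ (-(17 / 4 : ℝ))) 4, ← Real.rpow_mul hH.le,
      ← Real.rpow_natCast H 17, ← Real.rpow_neg hH.le]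
    norm_num
  have h1 : v ^ 4 ≤ (H ^ (-(17 / 4 : ℝ))) ^ 4 := by
    rw [e, ← one_mul ((H ^ 17)⁻¹), le_mul_inv_iff₀ (by positivity)]
    exact h
  exact le_of_pow_le_pow_left₀ (by norm_num) hr.le h1

variable {a : ℕ → ℝ} {x : ℝ}

lemma ht_ge_two (a : ℕ → ℝ) : ∀ k, 2 ^ (k + 1) ≤ ht a k
  | 0 => by
      have h1 := d_mul_ge (bal_gA.pow 3) bal_gB
      have h2 := (bal_gA.pow 3).d
      have h3 : gB 1 1 = 2 := by simp [gB]
      rw [h3] at h1
      simp only [Nat.reduceAdd] at h1 h2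
      have h4 : (2 : ℤ) ≤ (st a 0).X 1 1 := by
        have : (st a 0).X = gA ^ 4 * gB := rfl
        rw [this]
        linarith
      unfold ht
      simp only [zero_add, pow_one]
      exact_mod_cast h4
  | k + 1 => by
      have h1 := ht_ge_two a k
      have h2 := ht_succ_ge a k
      have h3 : (2 : ℝ) ≤ ht a k := by
        calc (2 : ℝ) = 2 ^ 1 := by norm_num
          _ ≤ 2 ^ (k + 1) := pow_le_pow_right₀ (by norm_num) (by omega)
          _ ≤ _ := h1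
      have h4 : 2 * ht a k ≤ ht a k ^ 4 := by
        have e : ht a k ^ 4 = ht a k ^ 3 * ht a k := by ring
        have h5 : (2 : ℝ) ≤ ht a k ^ 3 := by
          calc (2 : ℝ) ≤ 2 ^ 3 := by norm_num
            _ ≤ _ := pow_le_pow_left₀ (by norm_num) h3 3
        rw [e]
        exact mul_le_mul_of_nonneg_right h5 (by linarith)
      calc (2 : ℝ) ^ (k + 1 + 1) = 2 * 2 ^ (k + 1) := by ring
        _ ≤ 2 * ht a k := by linarith
        _ ≤ _ := h4.trans h2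

lemma ht_le_succ (a : ℕ → ℝ) (k : ℕ) : ht a k ≤ ht a (k + 1) := by
  have h1 := one_le_ht a k
  have h2 := ht_succ_ge a k
  calc ht a k = ht a k ^ 1 := (pow_one _).symm
    _ ≤ ht a k ^ 4 := pow_le_pow_right₀ h1 (by norm_num)
    _ ≤ _ := h2

lemma ht_mono (a : ℕ → ℝ) : Monotone (ht a) := monotone_nat_of_le_succ (ht_le_succ a)

/-- numerical part, first case -/
lemma num1 {q h h' H : ℝ} (hq : 0 ≤ q) (hh : 10 ^ 21 ≤ h) (h4 : h ^ 4 ≤ h')
    (hb : q * (h * h' ^ 2) ≤ 2250) (hH0 : 0 ≤ H) (hH : H ≤ 24 * h ^ 2) : q ^ 4 * H ^ 17 ≤ 1 := by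
  have hpos : 0 < h := by linarith [show (0 : ℝ) < 10 ^ 21 by norm_num]
  have h1 : q * h ^ 9 ≤ 2250 := by
    have e : h ^ 9 = h * (h ^ 4) ^ 2 := by ring
    have : h * (h ^ 4) ^ 2 ≤ h * h' ^ 2 :=
      mul_le_mul_of_nonneg_left (pow_le_pow_left₀ (by positivity) h4 2) hpos.le
    calc q * h ^ 9 = q * (h * (h ^ 4) ^ 2) := by rw [e]
      _ ≤ q * (h * h' ^ 2) := mul_le_mul_of_nonneg_left this hq
      _ ≤ _ := hb
  have h2 : (q * h ^ 9) ^ 4 ≤ 2250 ^ 4 := pow_le_pow_left₀ (by positivity) h1 4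
  have h3 : H ^ 17 ≤ (24 * h ^ 2) ^ 17 := pow_le_pow_left₀ hH0 hH 17
  have h5 : (q ^ 4 * H ^ 17) * h ^ 36 ≤ 1 * h ^ 36 := by
    calc (q ^ 4 * H ^ 17) * h ^ 36 = (q * h ^ 9) ^ 4 * H ^ 17 := by ring
      _ ≤ 2250 ^ 4 * (24 * h ^ 2) ^ 17 := mul_le_mul h2 h3 (by positivity) (by norm_num)
      _ = (2250 ^ 4 * 24 ^ 17) * h ^ 34 := by ring
      _ ≤ (10 ^ 21) ^ 2 * h ^ 34 := by
          apply mul_le_mul_of_nonneg_right _ (by positivity)
          norm_num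
      _ ≤ h ^ 2 * h ^ 34 := by
          apply mul_le_mul_of_nonneg_right _ (by positivity)
          exact pow_le_pow_left₀ (by norm_num) hh 2
      _ = 1 * h ^ 36 := by ring
  exact le_of_mul_le_mul_right h5 (by positivity)

/-- numerical part, second case -/
lemma num2 {q h h' H : ℝ} (hq : 0 ≤ q) (hh : 10 ^ 21 ≤ h) (h4 : h ^ 4 ≤ h')
    (h6 : h' ≤ 3125 * h ^ 6)
    (hb : q * (h * h' ^ 2) ≤ 2250) (hH0 : 0 ≤ H) (hH : H ≤ 4 * h') :
    (q ^ 2) ^ 4 * H ^ 17 ≤ 1 := by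
  have hpos : 0 < h := by linarith [show (0 : ℝ) < 10 ^ 21 by norm_num]
  have hpos' : 0 < h' := lt_of_lt_of_le (by positivity) h4
  have h2 : (q * (h * h' ^ 2)) ^ 8 ≤ 2250 ^ 8 := pow_le_pow_left₀ (by positivity) hb 8
  have h3 : H ^ 17 ≤ (4 * h') ^ 17 := pow_le_pow_left₀ hH0 hH 17
  have h5 : ((q ^ 2) ^ 4 * H ^ 17) * (h ^ 8 * h' ^ 16) ≤ 1 * (h ^ 8 * h' ^ 16) := by
    calc ((q ^ 2) ^ 4 * H ^ 17) * (h ^ 8 * h' ^ 16) = (q * (h * h' ^ 2)) ^ 8 * H ^ 17 := by ring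
      _ ≤ 2250 ^ 8 * (4 * h') ^ 17 := mul_le_mul h2 h3 (by positivity) (by norm_num)
      _ = (2250 ^ 8 * 4 ^ 17) * h' * h' ^ 16 := by ring
      _ ≤ (2250 ^ 8 * 4 ^ 17) * (3125 * h ^ 6) * h' ^ 16 := by
          apply mul_le_mul_of_nonneg_right _ (by positivity)
          exact mul_le_mul_of_nonneg_left h6 (by norm_num)
      _ = (2250 ^ 8 * 4 ^ 17 * 3125) * (h ^ 6 * h' ^ 16) := by ring
      _ ≤ (10 ^ 21) ^ 2 * (h ^ 6 * h' ^ 16) := by
          apply mul_le_mul_of_nonneg_right _ (by positivity)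
          norm_num
      _ ≤ h ^ 2 * (h ^ 6 * h' ^ 16) := by
          apply mul_le_mul_of_nonneg_right _ (by positivity)
          exact pow_le_pow_left₀ (by norm_num) hh 2
      _ = 1 * (h ^ 8 * h' ^ 16) := by ring
  exact le_of_mul_le_mul_right h5 (by positivity)

/-- good approximations at every height -/
theorem approx (hx : ∀ k, In (st a k).X x) : ∃ H0 : ℝ, ∀ H : ℝ, H0 ≤ H →
    ∃ P : ℤ[X], P ≠ 0 ∧ P.natDegree ≤ 4 ∧ (∀ i : ℕ, |((P.coeff i : ℤ) : ℝ)| ≤ H) ∧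
      |aeval x P| ≤ H ^ (-(17 / 4 : ℝ)) := by
  obtain ⟨K, hK⟩ : ∃ K, (10 : ℝ) ^ 21 ≤ ht a K := by
    obtain ⟨n, hn⟩ := pow_unbounded_of_one_lt ((10 : ℝ) ^ 21) (by norm_num : (1 : ℝ) < 2)
    refine ⟨n, hn.le.trans ((pow_le_pow_right₀ (by norm_num) (by omega)).trans (ht_ge_two a n))⟩
  refine ⟨4 * ht a K, fun H hH => ?_⟩
  have hex : ∃ k, H < 4 * ht a (k + 1) := by
    obtain ⟨n, hn⟩ := pow_unbounded_of_one_lt H (by norm_num : (1 : ℝ) < 2)
    refine ⟨n, ?_⟩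
    have h1 := ht_ge_two a (n + 1)
    have h2 : (2 : ℝ) ^ n ≤ 2 ^ (n + 1 + 1) := pow_le_pow_right₀ (by norm_num) (by omega)
    have h3 : (0 : ℝ) < 2 ^ n := by positivity
    linarith
  classical
  set k := Nat.find hex with hk
  have hk1 : H < 4 * ht a (k + 1) := Nat.find_spec hex
  have hKk : K ≤ k := by
    by_contra hcon
    have : ht a (k + 1) ≤ ht a K := ht_mono a (by omega)
    linarith
  have hk2 : 4 * ht a k ≤ H := by
    rcases Nat.eq_zero_or_pos k with h0 | h0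
    · have : K = k := by omega
      rw [← this]; exact hH
    · have h1 := Nat.find_min hex (m := k - 1) (by omega)
      have e : k - 1 + 1 = k := by omega
      rw [e] at h1
      exact not_lt.mp h1
  have hh : (10 : ℝ) ^ 21 ≤ ht a k := hK.trans (ht_mono a hKk)
  have hpos : (0 : ℝ) < ht a k := by linarith [show (0 : ℝ) < 10 ^ 21 by norm_num]
  have hHpos : 0 < H := by linarith
  have hi := inv_st a k
  have hb := qv_bound hx k
  set M := (st a k).X with hM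
  have hd : ht a k = (M 1 1 : ℝ) := rfl
  have ha1 : (1 : ℝ) ≤ M 0 0 := by exact_mod_cast hi.bX.a
  have hb1 : (1 : ℝ) ≤ M 0 1 := by exact_mod_cast hi.bX.b
  have hc1 : (1 : ℝ) ≤ M 1 0 := by exact_mod_cast hi.bX.c
  have hd1 : (1 : ℝ) ≤ M 1 1 := by exact_mod_cast hi.bX.d
  have hc2 : (M 1 0 : ℝ) ≤ 2 * M 1 1 := by exact_mod_cast hi.bX.cd
  have hb2 : (M 0 1 : ℝ) ≤ 2 * M 1 1 := by exact_mod_cast hi.bX.bd
  have ha2 : (M 0 0 : ℝ) ≤ 2 * M 0 1 := by exact_mod_cast hi.bX.ab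
  have ha3 : (M 0 0 : ℝ) ≤ 4 * M 1 1 := by linarith
  rw [hd] at hk2 hh hpos
  have he : |((M 1 1 : ℝ) - M 0 0)| ≤ 4 * M 1 1 := by
    rw [abs_le]; constructor <;> linarith
  have hcne : M 1 0 ≠ 0 := by
    have := hi.bX.c
    rw [← hM] at this
    omega
  by_cases hcase : H ≤ 24 * (M 1 1 : ℝ) ^ 2
  · refine ⟨p5 (-(M 0 1)) (M 1 1 - M 0 0) (M 1 0) 0 0, ?_, natDegree_p5 _ _ _ _ _, ?_, ?_⟩
    · intro h0
      have := congrArg (fun p => p.coeff 2) h0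
      simp only [coeff_p5, coeff_zero] at this
      norm_num at this
      exact hcne this
    · apply abs_coeff_p5
      · push_cast; rw [abs_neg, abs_of_pos (by linarith)]; linarith
      · push_cast; linarith
      · rw [abs_of_pos (by linarith)]; linarith
      · simpa using hHpos.le
      · simpa using hHpos.le
    · have e : aeval x (p5 (-(M 0 1)) (M 1 1 - M 0 0) (M 1 0) 0 0) = qv M x := by
        rw [aeval_p5]; unfold qv; push_cast; ring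
      rw [e]
      exact le_rpow_of (abs_nonneg _) hHpos
        (num1 (abs_nonneg _) hh (ht_succ_ge a k) hb hHpos.le hcase)
  · push Not at hcase
    refine ⟨p5 ((M 0 1) ^ 2) (-(2 * (M 0 1) * (M 1 1 - M 0 0)))
      ((M 1 1 - M 0 0) ^ 2 - 2 * (M 1 0) * (M 0 1)) (2 * (M 1 0) * (M 1 1 - M 0 0))
      ((M 1 0) ^ 2), ?_, natDegree_p5 _ _ _ _ _, ?_, ?_⟩
    · intro h0
      have := congrArg (fun p => p.coeff 4) h0
      simp only [coeff_p5, coeff_zero] at this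
      norm_num at this
      exact hcne this
    · have e1 : |((M 1 1 : ℝ) - M 0 0)| ^ 2 ≤ (4 * M 1 1) ^ 2 :=
        pow_le_pow_left₀ (abs_nonneg _) he 2
      have e2 : (M 1 0 : ℝ) * M 0 1 ≤ (2 * M 1 1) * (2 * M 1 1) :=
        mul_le_mul hc2 hb2 (by linarith) (by linarith)
      have e3 : (M 0 1 : ℝ) * |((M 1 1 : ℝ) - M 0 0)| ≤ (2 * M 1 1) * (4 * M 1 1) :=
        mul_le_mul hb2 he (abs_nonneg _) (by linarith)
      have e4 : (M 1 0 : ℝ) * |((M 1 1 : ℝ) - M 0 0)| ≤ (2 * M 1 1) * (4 * M 1 1) :=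
        mul_le_mul hc2 he (abs_nonneg _) (by linarith)
      have e5 : (M 0 1 : ℝ) ^ 2 ≤ (2 * M 1 1) ^ 2 := pow_le_pow_left₀ (by linarith) hb2 2
      have e6 : (M 1 0 : ℝ) ^ 2 ≤ (2 * M 1 1) ^ 2 := pow_le_pow_left₀ (by linarith) hc2 2
      have e7 : (0 : ℝ) ≤ (M 1 1 : ℝ) ^ 2 := by positivity
      apply abs_coeff_p5
      · push_cast; rw [abs_of_nonneg (by positivity)]; nlinarith
      · push_cast
        rw [abs_neg, abs_mul, abs_mul, abs_of_pos (by linarith : (0 : ℝ) < M 0 1), abs_two]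
        nlinarith
      · push_cast
        have e8 : ((M 1 1 : ℝ) - M 0 0) ^ 2 = |((M 1 1 : ℝ) - M 0 0)| ^ 2 := (sq_abs _).symm
        have e9 : 0 ≤ ((M 1 1 : ℝ) - M 0 0) ^ 2 := sq_nonneg _
        have e10 : 0 ≤ (M 1 0 : ℝ) * M 0 1 := by positivity
        rw [abs_le]
        constructor <;> nlinarith
      · push_cast
        rw [abs_mul, abs_mul, abs_of_pos (by linarith : (0 : ℝ) < M 1 0), abs_two]
        nlinarith
      · push_cast; rw [abs_of_nonneg (by positivity)]; nlinarith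
    · have e : aeval x (p5 ((M 0 1) ^ 2) (-(2 * (M 0 1) * (M 1 1 - M 0 0)))
          ((M 1 1 - M 0 0) ^ 2 - 2 * (M 1 0) * (M 0 1)) (2 * (M 1 0) * (M 1 1 - M 0 0))
          ((M 1 0) ^ 2)) = (qv M x) ^ 2 := by
        rw [aeval_p5]; unfold qv; push_cast; ring
      rw [e, abs_pow]
      exact le_rpow_of (by positivity) hHpos
        (num2 (abs_nonneg _) hh (ht_succ_ge a k) (ht_succ_le a k) hb hHpos.le hk1.le)

/-- a transcendental real number with uniform exponent of degree four at least `17/4` -/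
theorem main : ∃ ξ : ℝ, Transcendental ℚ ξ ∧ ∃ H0 : ℝ, ∀ H : ℝ, H0 ≤ H →
    ∃ P : ℤ[X], P ≠ 0 ∧ P.natDegree ≤ 4 ∧ (∀ i : ℕ, |((P.coeff i : ℤ) : ℝ)| ≤ H) ∧
      |aeval ξ P| ≤ H ^ (-(17 / 4 : ℝ)) := by
  have hc : {x : ℝ | IsAlgebraic ℚ x}.Countable := Algebraic.countable ℚ ℝ
  obtain ⟨a, ha⟩ := hc.exists_eq_range ⟨0, isAlgebraic_zero⟩
  obtain ⟨x, hx⟩ := exists_xi a
  refine ⟨x, fun halg => ?_, approx hx⟩
  have : x ∈ Set.range a := ha ▸ halg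
  obtain ⟨k, hk⟩ := this
  exact ne_a hx k hk.symm

end Pool.Agent.MP1ab58f
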