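import Mathlib

/-!
# Balanced integral 2 x 2 matrices and the quadratic forms attached to them
-/

set_option autoImplicit false

namespace Pool.Agent.MP1ab58f

/-- integral 2 x 2 matrices -/
abbrev Mt := Matrix (Fin 2) (Fin 2) ℤ

/-- `x` lies in the image of `[0, ∞]` under the Möbius map of `M` (for `det M = 1`). -/
def In (M : Mt) (x : ℝ) : Prop :=
  0 ≤ (M 1 1 : ℝ) * x - (M 0 1 : ℝ) ∧ 0 ≤ (M 0 0 : ℝ) - (M 1 0 : ℝ) * x

/-- positive entries, neighbouring entries within a factor two -/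
structure Bal (M : Mt) : Prop where
  a : 1 ≤ M 0 0
  b : 1 ≤ M 0 1
  c : 1 ≤ M 1 0
  d : 1 ≤ M 1 1
  ab : M 0 0 ≤ 2 * M 0 1
  ba : M 0 1 ≤ 2 * M 0 0
  cd : M 1 0 ≤ 2 * M 1 1
  dc : M 1 1 ≤ 2 * M 1 0
  ac : M 0 0 ≤ 2 * M 1 0
  ca : M 1 0 ≤ 2 * M 0 0
  bd : M 0 1 ≤ 2 * M 1 1
  db : M 1 1 ≤ 2 * M 0 1

lemma mul00 (M N : Mt) : (M * N) 0 0 = M 0 0 * N 0 0 + M 0 1 * N 1 0 := by
  simp [Matrix.mul_apply, Fin.sum_univ_two]

lemma mul01 (M N : Mt) : (M * N) 0 1 = M 0 0 * N 0 1 + M 0 1 * N 1 1 := by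
  simp [Matrix.mul_apply, Fin.sum_univ_two]

lemma mul10 (M N : Mt) : (M * N) 1 0 = M 1 0 * N 0 0 + M 1 1 * N 1 0 := by
  simp [Matrix.mul_apply, Fin.sum_univ_two]

lemma mul11 (M N : Mt) : (M * N) 1 1 = M 1 0 * N 0 1 + M 1 1 * N 1 1 := by
  simp [Matrix.mul_apply, Fin.sum_univ_two]

lemma aux1 {p q a b : ℤ} (hp : 1 ≤ p) (hq : 1 ≤ q) (ha : 1 ≤ a) (hb : 1 ≤ b) :
    1 ≤ p * a + q * b := by
  have h1 : 1 ≤ p * a := one_le_mul_of_one_le_of_one_le hp ha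
  have h2 : 1 ≤ q * b := one_le_mul_of_one_le_of_one_le hq hb
  linarith

lemma aux2 {p q a b c d : ℤ} (hp : 1 ≤ p) (hq : 1 ≤ q) (h1 : a ≤ 2 * b) (h2 : c ≤ 2 * d) :
    p * a + q * c ≤ 2 * (p * b + q * d) := by
  have e1 := mul_le_mul_of_nonneg_left h1 (by linarith : (0 : ℤ) ≤ p)
  have e2 := mul_le_mul_of_nonneg_left h2 (by linarith : (0 : ℤ) ≤ q)
  linarith

lemma aux3 {p q a b c d : ℤ} (hp : 1 ≤ p) (hq : 1 ≤ q) (h1 : a ≤ 2 * b) (h2 : c ≤ 2 * d) :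
    a * p + c * q ≤ 2 * (b * p + d * q) := by
  have e1 := mul_le_mul_of_nonneg_right h1 (by linarith : (0 : ℤ) ≤ p)
  have e2 := mul_le_mul_of_nonneg_right h2 (by linarith : (0 : ℤ) ≤ q)
  linarith

lemma Bal.mul {M N : Mt} (hM : Bal M) (hN : Bal N) : Bal (M * N) where
  a := by rw [mul00]; exact aux1 hM.a hM.b hN.a hN.c
  b := by rw [mul01]; exact aux1 hM.a hM.b hN.b hN.d
  c := by rw [mul10]; exact aux1 hM.c hM.d hN.a hN.c
  d := by rw [mul11]; exact aux1 hM.c hM.d hN.b hN.d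
  ab := by rw [mul00, mul01]; exact aux2 hM.a hM.b hN.ab hN.cd
  ba := by rw [mul00, mul01]; exact aux2 hM.a hM.b hN.ba hN.dc
  cd := by rw [mul10, mul11]; exact aux2 hM.c hM.d hN.ab hN.cd
  dc := by rw [mul10, mul11]; exact aux2 hM.c hM.d hN.ba hN.dc
  ac := by rw [mul00, mul10]; exact aux3 hN.a hN.c hM.ac hM.bd
  ca := by rw [mul00, mul10]; exact aux3 hN.a hN.c hM.ca hM.db
  bd := by rw [mul01, mul11]; exact aux3 hN.b hN.d hM.ac hM.bd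
  db := by rw [mul01, mul11]; exact aux3 hN.b hN.d hM.ca hM.db

lemma Bal.pow {M : Mt} (hM : Bal M) : ∀ n : ℕ, Bal (M ^ (n + 1))
  | 0 => by simpa using hM
  | n + 1 => by rw [pow_succ]; exact (Bal.pow hM n).mul hM

lemma d_mul_ge {M N : Mt} (hM : Bal M) (hN : Bal N) : M 1 1 * N 1 1 ≤ (M * N) 1 1 := by
  rw [mul11]
  nlinarith [hM.c, hN.b]

lemma d_mul_le {M N : Mt} (hM : Bal M) (hN : Bal N) : (M * N) 1 1 ≤ 5 * (M 1 1 * N 1 1) := by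
  rw [mul11]
  have h1 := hM.cd
  have h2 := hN.bd
  have h3 := hM.d
  have h4 := hN.d
  have h5 : M 1 0 * N 0 1 ≤ (2 * M 1 1) * (2 * N 1 1) :=
    mul_le_mul h1 h2 (by linarith [hN.b]) (by linarith)
  nlinarith

lemma det_eq (M : Mt) : M.det = M 0 0 * M 1 1 - M 0 1 * M 1 0 := Matrix.det_fin_two M

/-- the cone of a product lies in the cone of its first factor -/
lemma In.of_mul {M N : Mt} (hN : Bal N) (hdet : N.det = 1) {x : ℝ} (h : In (M * N) x) :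
    In M x := by
  obtain ⟨h1, h2⟩ := h
  rw [mul11, mul01] at h1
  rw [mul00, mul10] at h2
  push_cast at h1 h2
  have hd : (N 0 0 : ℝ) * N 1 1 - N 0 1 * N 1 0 = 1 := by
    have := det_eq N
    rw [hdet] at this
    exact_mod_cast this.symm
  have ha : (1 : ℝ) ≤ N 0 0 := by exact_mod_cast hN.a
  have hb : (1 : ℝ) ≤ N 0 1 := by exact_mod_cast hN.b
  have hc : (1 : ℝ) ≤ N 1 0 := by exact_mod_cast hN.c
  have hd' : (1 : ℝ) ≤ N 1 1 := by exact_mod_cast hN.d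
  constructor
  · have e : (M 1 1 : ℝ) * x - M 0 1 =
        (N 0 0 : ℝ) * (((M 1 0 : ℝ) * N 0 1 + M 1 1 * N 1 1) * x - (M 0 0 * N 0 1 + M 0 1 * N 1 1))
        + (N 0 1 : ℝ) * ((M 0 0 * N 0 0 + M 0 1 * N 1 0) - (M 1 0 * N 0 0 + M 1 1 * N 1 0) * x) := by
      linear_combination (-(M 1 1 : ℝ) * x + M 0 1) * hd
    rw [e]
    positivity
  · have e : (M 0 0 : ℝ) - M 1 0 * x =
        (N 1 0 : ℝ) * (((M 1 0 : ℝ) * N 0 1 + M 1 1 * N 1 1) * x - (M 0 0 * N 0 1 + M 0 1 * N 1 1))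
        + (N 1 1 : ℝ) * ((M 0 0 * N 0 0 + M 0 1 * N 1 0) - (M 1 0 * N 0 0 + M 1 1 * N 1 0) * x) := by
      linear_combination (-(M 0 0 : ℝ) + M 1 0 * x) * hd
    rw [e]
    positivity

/-- the value of the quadratic form of `W` at `x` -/
def qv (W : Mt) (x : ℝ) : ℝ := (W 1 0 : ℝ) * x ^ 2 + ((W 1 1 : ℝ) - W 0 0) * x - W 0 1

/-- The key estimate: if `W X = P E`, `x` is in the cone of `X` and of `P`, then the form of `W` is
small at `x`. -/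
lemma qv_le {W X P E : Mt} (hP : Bal P) (hPd : P.det = 1) (hXd : X.det = 1) (hE : Bal E)
    (hWX : W * X = P * E) {x : ℝ} (h1 : In X x) (h2 : In P x) :
    |qv W x| * ((P 1 0 : ℝ) * P 1 1) ≤ (W 1 0 : ℝ) * x + W 1 1 := by
  obtain ⟨hz1, hz2⟩ := h1
  obtain ⟨hu1, hu2⟩ := h2
  have hd : (P 0 0 : ℝ) * P 1 1 - P 0 1 * P 1 0 = 1 := by
    have := det_eq P
    rw [hPd] at this
    exact_mod_cast this.symm
  have hdX : (X 0 0 : ℝ) * X 1 1 - X 0 1 * X 1 0 = 1 := by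
    have := det_eq X
    rw [hXd] at this
    exact_mod_cast this.symm
  have e00 : (W 0 0 : ℝ) * X 0 0 + W 0 1 * X 1 0 = P 0 0 * E 0 0 + P 0 1 * E 1 0 := by
    have := congrFun (congrFun hWX 0) 0
    rw [mul00, mul00] at this
    exact_mod_cast this
  have e01 : (W 0 0 : ℝ) * X 0 1 + W 0 1 * X 1 1 = P 0 0 * E 0 1 + P 0 1 * E 1 1 := by
    have := congrFun (congrFun hWX 0) 1
    rw [mul01, mul01] at this
    exact_mod_cast this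
  have e10 : (W 1 0 : ℝ) * X 0 0 + W 1 1 * X 1 0 = P 1 0 * E 0 0 + P 1 1 * E 1 0 := by
    have := congrFun (congrFun hWX 1) 0
    rw [mul10, mul10] at this
    exact_mod_cast this
  have e11 : (W 1 0 : ℝ) * X 0 1 + W 1 1 * X 1 1 = P 1 0 * E 0 1 + P 1 1 * E 1 1 := by
    have := congrFun (congrFun hWX 1) 1
    rw [mul11, mul11] at this
    exact_mod_cast this
  have pa : (1 : ℝ) ≤ P 0 0 := by exact_mod_cast hP.a
  have pb : (1 : ℝ) ≤ P 0 1 := by exact_mod_cast hP.b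
  have pc : (1 : ℝ) ≤ P 1 0 := by exact_mod_cast hP.c
  have pd : (1 : ℝ) ≤ P 1 1 := by exact_mod_cast hP.d
  have ea : (1 : ℝ) ≤ E 0 0 := by exact_mod_cast hE.a
  have eb : (1 : ℝ) ≤ E 0 1 := by exact_mod_cast hE.b
  have ec : (1 : ℝ) ≤ E 1 0 := by exact_mod_cast hE.c
  have ed : (1 : ℝ) ≤ E 1 1 := by exact_mod_cast hE.d
  set z1 : ℝ := (X 1 1 : ℝ) * x - X 0 1 with hz1d
  set z2 : ℝ := (X 0 0 : ℝ) - X 1 0 * x with hz2d
  have hx : (X 0 0 : ℝ) * z1 + X 0 1 * z2 = x := by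
    rw [hz1d, hz2d]; linear_combination x * hdX
  have hone : (X 1 0 : ℝ) * z1 + X 1 1 * z2 = 1 := by
    rw [hz1d, hz2d]; linear_combination hdX
  set u1 : ℝ := (P 1 1 : ℝ) * x - P 0 1 with hu1d
  set u2 : ℝ := (P 0 0 : ℝ) - P 1 0 * x with hu2d
  -- u' = E z
  set v1 : ℝ := (E 0 0 : ℝ) * z1 + E 0 1 * z2 with hv1
  set v2 : ℝ := (E 1 0 : ℝ) * z1 + E 1 1 * z2 with hv2
  have hv1' : 0 ≤ v1 := by rw [hv1]; positivity
  have hv2' : 0 ≤ v2 := by rw [hv2]; positivity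
  have hy1 : (W 0 0 : ℝ) * x + W 0 1 = P 0 0 * v1 + P 0 1 * v2 := by
    rw [hv1, hv2]
    linear_combination (-(W 0 0 : ℝ)) * hx - (W 0 1 : ℝ) * hone + z1 * e00 + z2 * e01
  have hy2 : (W 1 0 : ℝ) * x + W 1 1 = P 1 0 * v1 + P 1 1 * v2 := by
    rw [hv1, hv2]
    linear_combination (-(W 1 0 : ℝ)) * hx - (W 1 1 : ℝ) * hone + z1 * e10 + z2 * e11
  have hPx : (P 0 0 : ℝ) * u1 + P 0 1 * u2 = x := by
    rw [hu1d, hu2d]; linear_combination x * hd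
  have hP1 : (P 1 0 : ℝ) * u1 + P 1 1 * u2 = 1 := by
    rw [hu1d, hu2d]; linear_combination hd
  have hq : qv W x = u1 * v2 - u2 * v1 := by
    have e : qv W x = x * ((W 1 0 : ℝ) * x + W 1 1) - ((W 0 0 : ℝ) * x + W 0 1) := by
      unfold qv; ring
    rw [e, hy1, hy2]
    linear_combination (-(P 1 0 : ℝ) * v1 - P 1 1 * v2) * hPx +
      ((P 0 0 : ℝ) * v1 + P 0 1 * v2) * hP1 + (u1 * v2 - u2 * v1) * hd
  have t1 : 0 ≤ (P 1 0 : ℝ) * u1 := by positivity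
  have t2 : 0 ≤ (P 1 1 : ℝ) * u2 := by positivity
  have t3 : 0 ≤ (P 1 0 : ℝ) * v1 := by positivity
  have t4 : 0 ≤ (P 1 1 : ℝ) * v2 := by positivity
  have hc1 : (P 1 0 : ℝ) * u1 ≤ 1 := by linarith
  have hd1 : (P 1 1 : ℝ) * u2 ≤ 1 := by linarith
  have hc2 : (P 1 0 : ℝ) * v1 ≤ (W 1 0 : ℝ) * x + W 1 1 := by rw [hy2]; linarith
  have hd2 : (P 1 1 : ℝ) * v2 ≤ (W 1 0 : ℝ) * x + W 1 1 := by rw [hy2]; linarith
  have hy0 : 0 ≤ (W 1 0 : ℝ) * x + W 1 1 := by rw [hy2]; positivity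
  have k1 : ((P 1 0 : ℝ) * u1) * (P 1 1 * v2) ≤ 1 * ((W 1 0 : ℝ) * x + W 1 1) :=
    mul_le_mul hc1 hd2 (by positivity) zero_le_one
  have k2 : ((P 1 1 : ℝ) * u2) * (P 1 0 * v1) ≤ 1 * ((W 1 0 : ℝ) * x + W 1 1) :=
    mul_le_mul hd1 hc2 (by positivity) zero_le_one
  have k3 : 0 ≤ ((P 1 0 : ℝ) * u1) * (P 1 1 * v2) := by positivity
  have k4 : 0 ≤ ((P 1 1 : ℝ) * u2) * (P 1 0 * v1) := by positivity
  have hpos : 0 < (P 1 0 : ℝ) * P 1 1 := by positivity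
  have hfin : (u1 * v2 - u2 * v1) * ((P 1 0 : ℝ) * P 1 1) =
      ((P 1 0 : ℝ) * u1) * (P 1 1 * v2) - ((P 1 1 : ℝ) * u2) * (P 1 0 * v1) := by ring
  rw [hq, ← abs_of_pos hpos, ← abs_mul, hfin, abs_le]
  constructor <;> linarith

end Pool.Agent.MP1ab58f
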