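import Pool.Agent.Lib.MP_1ab58f_nt.Mat

/-!
# The sequence of matrices `X' = X ^ s * Y`, `Y' = X` with `s ∈ {4, 5}`
-/

set_option autoImplicit false

namespace Pool.Agent.MP1ab58f

/-- first generator -/
def gA : Mt := !![2, 1; 1, 1]
/-- second generator -/
def gB : Mt := !![1, 1; 1, 2]
/-- `gA * gB` -/
def gAB : Mt := !![3, 4; 2, 3]
/-- `gB * gA` -/
def gBA : Mt := !![3, 2; 4, 3]

lemma bal_gA : Bal gA := by constructor <;> simp [gA]
lemma bal_gB : Bal gB := by constructor <;> simp [gB]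
lemma bal_gAB : Bal gAB := by constructor <;> simp [gAB]
lemma bal_gBA : Bal gBA := by constructor <;> simp [gBA]
lemma det_gA : gA.det = 1 := by simp [gA, Matrix.det_fin_two]
lemma det_gB : gB.det = 1 := by simp [gB, Matrix.det_fin_two]
lemma det_gAB : gAB.det = 1 := by simp [gAB, Matrix.det_fin_two]
lemma det_gBA : gBA.det = 1 := by simp [gBA, Matrix.det_fin_two]
lemma gA_mul_gB : gA * gB = gAB := by
  ext i j; fin_cases i <;> fin_cases j <;> simp [gA, gB, gAB]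
lemma gB_mul_gA : gB * gA = gBA := by
  ext i j; fin_cases i <;> fin_cases j <;> simp [gA, gB, gBA]

/-- the two cones behind a common left factor are disjoint -/
lemma disj {P : Mt} (hPd : P.det = 1) {x : ℝ} (h1 : In (P * gAB) x) (h2 : In (P * gBA) x) :
    False := by
  have hd : (P 0 0 : ℝ) * P 1 1 - P 0 1 * P 1 0 = 1 := by
    have := det_eq P
    rw [hPd] at this
    exact_mod_cast this.symm
  obtain ⟨a1, a2⟩ := h1
  obtain ⟨b1, b2⟩ := h2
  rw [mul11, mul01] at a1 b1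
  rw [mul00, mul10] at a2 b2
  simp only [gAB, gBA, Matrix.of_apply, Matrix.cons_val', Matrix.cons_val_zero,
    Matrix.cons_val_one, Matrix.cons_val_fin_one] at a1 a2 b1 b2
  push_cast at a1 a2 b1 b2
  have hP1 : (P 1 0 : ℝ) * ((P 1 1 : ℝ) * x - P 0 1) + P 1 1 * ((P 0 0 : ℝ) - P 1 0 * x) = 1 := by
    linear_combination hd
  set u1 : ℝ := (P 1 1 : ℝ) * x - P 0 1 with hu1
  set u2 : ℝ := (P 0 0 : ℝ) - P 1 0 * x with hu2
  have a1' : 0 ≤ 3 * u1 - 4 * u2 := by rw [hu1, hu2]; linarith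
  have a2' : 0 ≤ 3 * u2 - 2 * u1 := by rw [hu1, hu2]; linarith
  have b1' : 0 ≤ 3 * u1 - 2 * u2 := by rw [hu1, hu2]; linarith
  have b2' : 0 ≤ 3 * u2 - 4 * u1 := by rw [hu1, hu2]; linarith
  have h0 : u1 = 0 := by linarith
  have h0' : u2 = 0 := by linarith
  rw [h0, h0'] at hP1
  norm_num at hP1

/-- a state of the construction -/
structure St where
  X : Mt
  Y : Mt
  P : Mt
  E : Mt
  F : Mt

/-- the invariants -/
structure Inv (s : St) : Prop where
  bX : Bal s.X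
  bY : Bal s.Y
  bP : Bal s.P
  dX : s.X.det = 1
  dY : s.Y.det = 1
  dP : s.P.det = 1
  hXY : s.X * s.Y = s.P * s.E
  hYX : s.Y * s.X = s.P * s.F
  hEF : (s.E = gAB ∧ s.F = gBA) ∨ (s.E = gBA ∧ s.F = gAB)
  hle : s.Y 1 1 ≤ s.X 1 1

/-- one step with exponent `n` -/
def step (n : ℕ) (s : St) : St := ⟨s.X ^ n * s.Y, s.X, s.X ^ n * s.P, s.F, s.E⟩

lemma Inv.bE {s : St} (h : Inv s) : Bal s.E := by
  rcases h.hEF with ⟨h1, _⟩ | ⟨h1, _⟩ <;> rw [h1]
  exacts [bal_gAB, bal_gBA]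

lemma Inv.bF {s : St} (h : Inv s) : Bal s.F := by
  rcases h.hEF with ⟨_, h1⟩ | ⟨_, h1⟩ <;> rw [h1]
  exacts [bal_gBA, bal_gAB]

lemma Inv.dE {s : St} (h : Inv s) : s.E.det = 1 := by
  rcases h.hEF with ⟨h1, _⟩ | ⟨h1, _⟩ <;> rw [h1]
  exacts [det_gAB, det_gBA]

lemma Inv.dF {s : St} (h : Inv s) : s.F.det = 1 := by
  rcases h.hEF with ⟨_, h1⟩ | ⟨_, h1⟩ <;> rw [h1]
  exacts [det_gBA, det_gAB]

lemma Inv.E11 {s : St} (h : Inv s) : s.E 1 1 = 3 := by
  rcases h.hEF with ⟨h1, _⟩ | ⟨h1, _⟩ <;> rw [h1] <;> simp [gAB, gBA]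

lemma d_pow_ge {M : Mt} (hM : Bal M) : ∀ n : ℕ, (M 1 1) ^ (n + 1) ≤ (M ^ (n + 1)) 1 1
  | 0 => by simp
  | n + 1 => by
      rw [pow_succ (M 1 1), pow_succ M]
      have h1 := d_pow_ge hM n
      have h2 := d_mul_ge (hM.pow n) hM
      have h3 : (M 1 1) ^ (n + 1) * M 1 1 ≤ (M ^ (n + 1)) 1 1 * M 1 1 :=
        mul_le_mul_of_nonneg_right h1 (by linarith [hM.d])
      linarith

lemma d_pow_le {M : Mt} (hM : Bal M) : ∀ n : ℕ, (M ^ (n + 1)) 1 1 ≤ 5 ^ n * (M 1 1) ^ (n + 1)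
  | 0 => by simp
  | n + 1 => by
      have e : (5 : ℤ) ^ (n + 1) * (M 1 1) ^ (n + 1 + 1) =
        5 * ((5 ^ n * (M 1 1) ^ (n + 1)) * M 1 1) := by ring
      rw [e, pow_succ M]
      have h1 := d_pow_le hM n
      have h2 := d_mul_le (hM.pow n) hM
      have h3 : (M ^ (n + 1)) 1 1 * M 1 1 ≤ (5 ^ n * (M 1 1) ^ (n + 1)) * M 1 1 :=
        mul_le_mul_of_nonneg_right h1 (by linarith [hM.d])
      linarith

lemma step_hXY {s : St} (h : Inv s) (n : ℕ) :
    (step n s).X * (step n s).Y = (step n s).P * (step n s).E := by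
  simp only [step]
  rw [Matrix.mul_assoc, h.hYX, Matrix.mul_assoc]

lemma step_hYX {s : St} (h : Inv s) (n : ℕ) :
    (step n s).Y * (step n s).X = (step n s).P * (step n s).F := by
  simp only [step]
  rw [← Matrix.mul_assoc, ← pow_succ', pow_succ, Matrix.mul_assoc, h.hXY, Matrix.mul_assoc]

lemma stepX_ge {s : St} (h : Inv s) (n : ℕ) :
    (s.X 1 1) ^ (n + 1) ≤ (step (n + 1) s).X 1 1 := by
  simp only [step]
  have h1 := d_pow_ge h.bX n
  have h2 := d_mul_ge (h.bX.pow n) h.bY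
  have h3 : (1 : ℤ) ≤ (s.X ^ (n + 1)) 1 1 := (h.bX.pow n).d
  nlinarith [h.bY.d]

lemma stepX_le {s : St} (h : Inv s) (n : ℕ) :
    (step (n + 1) s).X 1 1 ≤ 5 ^ (n + 1) * (s.X 1 1) ^ (n + 2) := by
  simp only [step]
  have h1 := d_pow_le h.bX n
  have h2 := d_mul_le (h.bX.pow n) h.bY
  have h3 : (1 : ℤ) ≤ (s.X ^ (n + 1)) 1 1 := (h.bX.pow n).d
  have h4 : (s.X ^ (n + 1)) 1 1 * s.Y 1 1 ≤ (5 ^ n * (s.X 1 1) ^ (n + 1)) * s.X 1 1 :=
    mul_le_mul h1 h.hle (by linarith [h.bY.d]) (by linarith)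
  have e : (5 : ℤ) ^ (n + 1) * (s.X 1 1) ^ (n + 2) =
      5 * ((5 ^ n * (s.X 1 1) ^ (n + 1)) * s.X 1 1) := by ring
  rw [e]
  linarith

lemma Inv.step {s : St} (h : Inv s) (n : ℕ) : Inv (step (n + 1) s) where
  bX := (h.bX.pow n).mul h.bY
  bY := h.bX
  bP := (h.bX.pow n).mul h.bP
  dX := by simp [MP1ab58f.step, Matrix.det_mul, Matrix.det_pow, h.dX, h.dY]
  dY := h.dX
  dP := by simp [MP1ab58f.step, Matrix.det_mul, Matrix.det_pow, h.dX, h.dP]
  hXY := step_hXY h _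
  hYX := step_hYX h _
  hEF := by
    rcases h.hEF with ⟨h1, h2⟩ | ⟨h1, h2⟩
    · right; exact ⟨h2, h1⟩
    · left; exact ⟨h2, h1⟩
  hle := by
    have h1 := stepX_ge h n
    have h2 : s.X 1 1 ≤ (s.X 1 1) ^ (n + 1) := by
      calc s.X 1 1 = (s.X 1 1) ^ 1 := (pow_one _).symm
        _ ≤ _ := pow_le_pow_right₀ h.bX.d (by omega)
    exact h2.trans h1

/-- `P'` is large -/
lemma stepP_ge {s : St} (h : Inv s) (n : ℕ) :
    (step (n + 1) s).X 1 1 * s.X 1 1 ≤ 15 * (step (n + 1) s).P 1 1 := by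
  have h' := h.step n
  have h1 := d_mul_ge h'.bX h'.bY
  have h2 := d_mul_le h'.bP h'.bE
  rw [h'.hXY] at h1
  rw [h'.E11] at h2
  have h3 : (MP1ab58f.step (n + 1) s).Y = s.X := rfl
  rw [h3] at h1
  linarith

/-- initial state -/
def st0 : St := ⟨gA ^ 4 * gB, gA, gA ^ 4, gBA, gAB⟩

lemma inv_st0 : Inv st0 where
  bX := (bal_gA.pow 3).mul bal_gB
  bY := bal_gA
  bP := bal_gA.pow 3
  dX := by simp [st0, Matrix.det_mul, Matrix.det_pow, det_gA, det_gB]
  dY := det_gA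
  dP := by simp [st0, Matrix.det_pow, det_gA]
  hXY := by simp only [st0]; rw [Matrix.mul_assoc, gB_mul_gA]
  hYX := by
    simp only [st0]
    rw [← Matrix.mul_assoc, ← pow_succ', pow_succ, Matrix.mul_assoc, gA_mul_gB]
  hEF := Or.inr ⟨rfl, rfl⟩
  hle := by
    simp only [st0]
    have h1 := d_mul_ge (bal_gA.pow 3) bal_gB
    have h2 := (bal_gA.pow 3).d
    have h3 : gB 1 1 = 2 := by simp [gB]
    have h4 : gA 1 1 = 1 := by simp [gA]
    rw [h3] at h1
    rw [h4]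
    simp only [Nat.reduceAdd] at h1 h2
    linarith

open Classical in
/-- the sequence of states; the exponent is chosen so as to avoid `a k` -/
noncomputable def st (a : ℕ → ℝ) : ℕ → St
  | 0 => st0
  | k + 1 => if In ((st a k).X ^ 4 * (st a k).Y * (st a k).X) (a k) then step 5 (st a k)
      else step 4 (st a k)

lemma st_succ (a : ℕ → ℝ) (k : ℕ) :
    st a (k + 1) = step 4 (st a k) ∨ st a (k + 1) = step 5 (st a k) := by
  rw [st]
  split_ifs
  · right; rfl
  · left; rfl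

lemma inv_st (a : ℕ → ℝ) : ∀ k, Inv (st a k)
  | 0 => inv_st0
  | k + 1 => by
      rcases st_succ a k with h | h <;> rw [h]
      exacts [(inv_st a k).step 3, (inv_st a k).step 4]

lemma stY (a : ℕ → ℝ) (k : ℕ) : (st a (k + 1)).Y = (st a k).X := by
  rcases st_succ a k with h | h <;> rw [h] <;> rfl

/-- `X_{k+1} = X_k * R` with a balanced `R` of determinant one -/
lemma stX_eq (a : ℕ → ℝ) (k : ℕ) :
    ∃ R : Mt, Bal R ∧ R.det = 1 ∧ (st a (k + 1)).X = (st a k).X * R := by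
  have h := inv_st a k
  rcases st_succ a k with e | e <;> rw [e]
  · refine ⟨(st a k).X ^ 3 * (st a k).Y, (h.bX.pow 2).mul h.bY, ?_, ?_⟩
    · simp [Matrix.det_mul, Matrix.det_pow, h.dX, h.dY]
    · simp only [step]
      rw [← Matrix.mul_assoc, ← pow_succ']
  · refine ⟨(st a k).X ^ 4 * (st a k).Y, (h.bX.pow 3).mul h.bY, ?_, ?_⟩
    · simp [Matrix.det_mul, Matrix.det_pow, h.dX, h.dY]
    · simp only [step]
      rw [← Matrix.mul_assoc, ← pow_succ']

/-- `X_{k+2} = X_{k+1} Y_{k+1} R` -/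
lemma stXY_eq (a : ℕ → ℝ) (k : ℕ) :
    ∃ R : Mt, Bal R ∧ R.det = 1 ∧
      (st a (k + 2)).X = ((st a (k + 1)).X * (st a (k + 1)).Y) * R := by
  obtain ⟨R, hR, hRd, e⟩ := stX_eq a k
  have h' := inv_st a (k + 1)
  have key : ∀ n : ℕ, (st a (k + 1)).X ^ (n + 3) * (st a (k + 1)).Y =
      ((st a (k + 1)).X * (st a (k + 1)).Y) * (R * ((st a (k + 1)).X ^ (n + 1) *
        (st a (k + 1)).Y)) := by
    intro n
    have e2 : (st a (k + 1)).X ^ (n + 3) =
        (st a (k + 1)).X * ((st a (k + 1)).X * (st a (k + 1)).X ^ (n + 1)) := by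
      rw [← pow_succ', ← pow_succ']
    rw [e2]
    have e3 : (st a (k + 1)).Y * R = (st a (k + 1)).X := by rw [stY, e]
    calc (st a (k + 1)).X * ((st a (k + 1)).X * (st a (k + 1)).X ^ (n + 1)) * (st a (k + 1)).Y
        = (st a (k + 1)).X * (((st a (k + 1)).Y * R) * (st a (k + 1)).X ^ (n + 1)) *
          (st a (k + 1)).Y := by rw [e3]
      _ = _ := by simp only [Matrix.mul_assoc]
  rcases st_succ a (k + 1) with h | h <;> rw [h]
  · refine ⟨_, hR.mul ((h'.bX.pow 1).mul h'.bY), ?_, key 1⟩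
    simp [Matrix.det_mul, Matrix.det_pow, hRd, h'.dX, h'.dY]
  · refine ⟨_, hR.mul ((h'.bX.pow 2).mul h'.bY), ?_, key 2⟩
    simp [Matrix.det_mul, Matrix.det_pow, hRd, h'.dX, h'.dY]

/-- the limit point -/
theorem exists_xi (a : ℕ → ℝ) : ∃ x : ℝ, ∀ k, In (st a k).X x := by
  have hset : ∀ k, {x : ℝ | In (st a k).X x} =
      Set.Icc (((st a k).X 0 1 : ℝ) / (st a k).X 1 1) (((st a k).X 0 0 : ℝ) / (st a k).X 1 0) := by
    intro k
    have h := inv_st a k
    have hc : (0 : ℝ) < (st a k).X 1 0 := by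
      have : (1 : ℝ) ≤ (st a k).X 1 0 := by exact_mod_cast h.bX.c
      linarith
    have hd : (0 : ℝ) < (st a k).X 1 1 := by
      have : (1 : ℝ) ≤ (st a k).X 1 1 := by exact_mod_cast h.bX.d
      linarith
    ext x
    simp only [In, Set.mem_ofPred_eq, Set.mem_Icc, div_le_iff₀ hd, le_div_iff₀ hc]
    constructor
    · rintro ⟨h1, h2⟩; constructor <;> linarith
    · rintro ⟨h1, h2⟩; constructor <;> linarith
  have hne : (⋂ k, {x : ℝ | In (st a k).X x}).Nonempty := by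
    apply IsCompact.nonempty_iInter_of_sequence_nonempty_isCompact_isClosed
    · intro k x hx
      obtain ⟨R, hR, hRd, e⟩ := stX_eq a k
      simp only [Set.mem_ofPred_eq] at hx ⊢
      rw [e] at hx
      exact hx.of_mul hR hRd
    · intro k
      rw [hset]
      have h := inv_st a k
      have hc : (0 : ℝ) < (st a k).X 1 0 := by
        have : (1 : ℝ) ≤ (st a k).X 1 0 := by exact_mod_cast h.bX.c
        linarith
      have hd : (0 : ℝ) < (st a k).X 1 1 := by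
        have : (1 : ℝ) ≤ (st a k).X 1 1 := by exact_mod_cast h.bX.d
        linarith
      have hdet : ((st a k).X 0 0 : ℝ) * (st a k).X 1 1 - (st a k).X 0 1 * (st a k).X 1 0 = 1 := by
        have := det_eq (st a k).X
        rw [h.dX] at this
        exact_mod_cast this.symm
      rw [Set.nonempty_Icc, div_le_div_iff₀ hd hc]
      linarith
    · rw [hset]; exact isCompact_Icc
    · intro k; rw [hset]; exact isClosed_Icc
  obtain ⟨x, hx⟩ := hne
  exact ⟨x, fun k => by simpa using Set.mem_iInter.mp hx k⟩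

variable {a : ℕ → ℝ} {x : ℝ}

lemma in_XY (hx : ∀ k, In (st a k).X x) (k : ℕ) :
    In ((st a (k + 1)).X * (st a (k + 1)).Y) x := by
  obtain ⟨R, hR, hRd, e⟩ := stXY_eq a k
  have h := hx (k + 2)
  rw [e] at h
  exact h.of_mul hR hRd

lemma in_P (hx : ∀ k, In (st a k).X x) (k : ℕ) : In (st a (k + 1)).P x := by
  have h := in_XY hx k
  have hi := inv_st a (k + 1)
  rw [hi.hXY] at h
  exact h.of_mul hi.bE hi.dE

lemma ne_a (hx : ∀ k, In (st a k).X x) (k : ℕ) : x ≠ a k := by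
  rintro rfl
  have hi := inv_st a k
  have h := in_XY hx k
  rw [stY] at h
  by_cases hc : In ((st a k).X ^ 4 * (st a k).Y * (st a k).X) (a k)
  · have e : st a (k + 1) = step 5 (st a k) := by rw [st, if_pos hc]
    rw [e] at h
    simp only [step] at h
    have hPd : ((st a k).X ^ 4 * (st a k).P).det = 1 := by
      simp [Matrix.det_mul, Matrix.det_pow, hi.dX, hi.dP]
    have h1 : In ((st a k).X ^ 4 * (st a k).P * (st a k).F) (a k) := by
      have e1 : (st a k).X ^ 4 * (st a k).Y * (st a k).X =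
          (st a k).X ^ 4 * (st a k).P * (st a k).F := by
        rw [Matrix.mul_assoc, hi.hYX, Matrix.mul_assoc]
      rwa [e1] at hc
    have h2 : In ((st a k).X ^ 4 * (st a k).P * (st a k).E) (a k) := by
      have e1 : (st a k).X ^ 5 * (st a k).Y * (st a k).X =
          ((st a k).X ^ 4 * (st a k).P * (st a k).E) * (st a k).X := by
        rw [pow_succ, Matrix.mul_assoc ((st a k).X ^ 4), hi.hXY]
        simp only [Matrix.mul_assoc]
      rw [e1] at h
      exact h.of_mul hi.bX hi.dX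
    rcases hi.hEF with ⟨hE, hF⟩ | ⟨hE, hF⟩
    · rw [hE] at h2; rw [hF] at h1
      exact disj hPd h2 h1
    · rw [hE] at h2; rw [hF] at h1
      exact disj hPd h1 h2
  · have e : st a (k + 1) = step 4 (st a k) := by rw [st, if_neg hc]
    rw [e] at h
    simp only [step] at h
    exact hc h

lemma x_le (hx : ∀ k, In (st a k).X x) : x ≤ 2 := by
  have h := hx 0
  have e : (st a 0).X = gA * (gA ^ 3 * gB) := by
    rw [← Matrix.mul_assoc, ← pow_succ']; rfl
  rw [e] at h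
  have h2 := h.of_mul ((bal_gA.pow 2).mul bal_gB)
    (by simp [Matrix.det_mul, Matrix.det_pow, det_gA, det_gB])
  have h3 := h2.2
  simp [gA] at h3
  exact h3

/-- the height parameter -/
noncomputable def ht (a : ℕ → ℝ) (k : ℕ) : ℝ := ((st a k).X 1 1 : ℝ)

lemma one_le_ht (a : ℕ → ℝ) (k : ℕ) : 1 ≤ ht a k := by
  unfold ht; exact_mod_cast (inv_st a k).bX.d

lemma ht_succ_ge (a : ℕ → ℝ) (k : ℕ) : ht a k ^ 4 ≤ ht a (k + 1) := by
  have h := inv_st a k
  have h1 : ((st a k).X 1 1) ^ 4 ≤ (st a (k + 1)).X 1 1 := by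
    rcases st_succ a k with e | e <;> rw [e]
    · exact stepX_ge h 3
    · exact (pow_le_pow_right₀ h.bX.d (by norm_num)).trans (stepX_ge h 4)
  unfold ht; exact_mod_cast h1

lemma ht_succ_le (a : ℕ → ℝ) (k : ℕ) : ht a (k + 1) ≤ 3125 * ht a k ^ 6 := by
  have h := inv_st a k
  have h1 : (st a (k + 1)).X 1 1 ≤ 3125 * ((st a k).X 1 1) ^ 6 := by
    rcases st_succ a k with e | e <;> rw [e]
    · have h2 := stepX_le h 3
      have h3 : ((st a k).X 1 1) ^ 5 ≤ ((st a k).X 1 1) ^ 6 :=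
        pow_le_pow_right₀ h.bX.d (by norm_num)
      have h4 : (0 : ℤ) ≤ ((st a k).X 1 1) ^ 5 := by
        have := h.bX.d
        positivity
      norm_num at h2
      linarith
    · have h2 := stepX_le h 4
      norm_num at h2
      exact h2
  unfold ht; exact_mod_cast h1

lemma P_ge (a : ℕ → ℝ) (k : ℕ) :
    ht a (k + 1) * ht a k ≤ 15 * ((st a (k + 1)).P 1 1 : ℝ) := by
  have h := inv_st a k
  have h1 : (st a (k + 1)).X 1 1 * (st a k).X 1 1 ≤ 15 * (st a (k + 1)).P 1 1 := by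
    rcases st_succ a k with e | e <;> rw [e]
    · exact stepP_ge h 3
    · exact stepP_ge h 4
  unfold ht; exact_mod_cast h1

/-- the main estimate for the value of the quadratic form -/
theorem qv_bound (hx : ∀ k, In (st a k).X x) (k : ℕ) :
    |qv (st a k).X x| * (ht a k * ht a (k + 1) ^ 2) ≤ 2250 := by
  have hi := inv_st a k
  have hi' := inv_st a (k + 1)
  have hWX : (st a k).X * (st a (k + 1)).X = (st a (k + 1)).P * (st a (k + 1)).F := by
    have := hi'.hYX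
    rwa [stY] at this
  have h1 := qv_le hi'.bP hi'.dP hi'.dX hi'.bF hWX (hx (k + 1)) (in_P hx k)
  have hPc : ((st a (k + 1)).P 1 1 : ℝ) ≤ 2 * (st a (k + 1)).P 1 0 := by
    exact_mod_cast hi'.bP.dc
  have hPd : (1 : ℝ) ≤ (st a (k + 1)).P 1 1 := by exact_mod_cast hi'.bP.d
  have hc : ((st a k).X 1 0 : ℝ) ≤ 2 * (st a k).X 1 1 := by exact_mod_cast hi.bX.cd
  have hc0 : (0 : ℝ) ≤ (st a k).X 1 0 := by
    have : (1 : ℝ) ≤ (st a k).X 1 0 := by exact_mod_cast hi.bX.c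
    linarith
  have hP := P_ge a k
  have hx2 := x_le hx
  have hh := one_le_ht a k
  have hh' := one_le_ht a (k + 1)
  have hy : ((st a k).X 1 0 : ℝ) * x + (st a k).X 1 1 ≤ 5 * ht a k := by
    have : ((st a k).X 1 0 : ℝ) * x ≤ (st a k).X 1 0 * 2 := mul_le_mul_of_nonneg_left hx2 hc0
    unfold ht
    linarith
  set q := |qv (st a k).X x| with hq
  have hq0 : 0 ≤ q := abs_nonneg _
  set c := ((st a (k + 1)).P 1 0 : ℝ)
  set d := ((st a (k + 1)).P 1 1 : ℝ)
  set h := ht a k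
  set h' := ht a (k + 1)
  -- q c d ≤ 5 h, h' h ≤ 15 d, d ≤ 2 c
  have e1 : q * (d * d) ≤ 2 * (5 * h) := by
    have : d * d ≤ 2 * (c * d) := by nlinarith
    have := mul_le_mul_of_nonneg_left this hq0
    nlinarith
  have e2 : (h' * h) ^ 2 ≤ 225 * (d * d) := by
    have : (h' * h) ^ 2 ≤ (15 * d) ^ 2 := pow_le_pow_left₀ (by positivity) hP 2
    nlinarith
  have e3 : q * (h' * h) ^ 2 ≤ 2250 * h := by
    have := mul_le_mul_of_nonneg_left e2 hq0
    nlinarith
  have e4 : (q * (h * h' ^ 2)) * h ≤ 2250 * h := by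
    calc (q * (h * h' ^ 2)) * h = q * (h' * h) ^ 2 := by ring
      _ ≤ _ := e3
  exact le_of_mul_le_mul_right e4 (by linarith)

end Pool.Agent.MP1ab58f
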